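import Pool.Agent.Q123.PolyAss

/-!
# Associated primes of the homological shift ideals of powers of polymatroidal ideals

Definitions used:
* `koszulD` (file `Pool.Agent.H677R3.RegKoszul`) is the Koszul differential of the variables, where
  a Koszul chain assigns to every finite set `T` of variables the coefficient of `e_T`, and `ind T`
  is the indicator vector of `T`;
* `TorNeAt J i a` (file `Pool.Agent.Q123.MTor`): the Koszul homology `H_i(x; J) = Tor_i(J, K)` is
  nonzero in multidegree `a`;
* `homShift i J` (same file): the ideal generated by the monomials `x^a` with `TorNeAt J i a`;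
* `IsPolymatroidal I` (file `Pool.Agent.Q123.PolyPow`): `I` is generated by the monomials with
  exponents in a set `B`, all of one degree, with the exchange property;
* `IsAssociated J P` (file `Pool.Agent.Q123.VNum`): `P` is prime and of the form `(J : f)`.
-/

set_option autoImplicit false

namespace Pool.Agent.Results.MP_be6357_al.AssChain

open Pool.Agent.Q123 MvPolynomial

/-- Let `I` be a polymatroidal ideal of `K[x_1,…,x_n]` and `1 ≤ i ≤ k`. Then every associated prime
of `HS_i(I^k)` is an associated prime of `HS_i(I^(k+1))`; moreover, if `I ≠ 0` then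
`HS_i(I^(k+1)) : I = HS_i(I^k)`. -/
theorem result (K : Type*) [Field K] (n : ℕ) (I : Ideal (MvPolynomial (Fin n) K))
    (hI : IsPolymatroidal I) (i k : ℕ) (hi : 1 ≤ i) (hk : i ≤ k) :
    (∀ P : Ideal (MvPolynomial (Fin n) K),
      IsAssociated (homShift i (I ^ k)) P → IsAssociated (homShift i (I ^ (k + 1))) P) ∧
    (I ≠ ⊥ → ∀ f : MvPolynomial (Fin n) K,
      (∀ g ∈ I, f * g ∈ homShift i (I ^ (k + 1))) ↔ f ∈ homShift i (I ^ k)) := by
  have hstep := homShift_pow_succ hI hk
  obtain ⟨B, d, rfl, hd, hB⟩ := id hI
  have hL := shiftGens_exch hB hd k i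
  have he : ∀ b ∈ shiftGens B d k i, b.degree = k * d + i := fun b hb => hb.1
  rcases B.eq_empty_or_nonempty with h0 | hne
  · subst h0
    have hbot : (Ideal.span ((fun s => monomial s (1 : K)) '' (∅ : Set (Fin n →₀ ℕ)))) = ⊥ := by
      simp
    refine ⟨fun P hP => ?_, fun h => absurd hbot h⟩
    have hz : ∀ l : ℕ, 1 ≤ l →
        (Ideal.span ((fun s => monomial s (1 : K)) '' (∅ : Set (Fin n →₀ ℕ)))) ^ l = ⊥ := by
      intro l hl
      rw [hbot, ← Ideal.zero_eq_bot, zero_pow (by omega)]
    rw [hz (k + 1) (by omega)]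
    rwa [hz k (by omega)] at hP
  · refine ⟨fun P hP => ?_, fun _ f => ⟨fun h => ?_, fun h g hg => ?_⟩⟩
    · rw [hstep]
      rw [homShift_eq hB hd] at hP ⊢
      exact isAssociated_mul hd hne hL he hP
    · rw [homShift_eq hB hd]
      apply mem_of_mul_mem hne hL he
      intro u hu
      have := h (monomial u 1) (Ideal.subset_span ⟨u, hu, rfl⟩)
      rwa [hstep, homShift_eq hB hd] at this
    · rw [hstep, mul_comm f g]
      exact Ideal.mul_mem_mul hg h

end Pool.Agent.Results.MP_be6357_al.AssChain
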